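import Pool.Agent.W901.RL.Stm
import Pool.Agent.H579R2.Spt.Had2

/-!
# Project RL, part SEP: separating labels
-/

set_option autoImplicit false

namespace Pool.Agent.W924.RL

open Finset Pool.Agent.NPC Pool.Agent.H579R2.Spt Pool.Agent.H251R5.PQ Pool.Agent.W901.AT
open Pool.Agent.W901.RL

theorem flatMap_range {α : Type*} (f : ℕ → ℕ → α) (b : ℕ) (hb : 0 < b) (a : ℕ) :
    (List.range a).flatMap (fun i => (List.range b).map (f i)) =
      (List.range (a * b)).map (fun l => f (l / b) (l % b)) := by
  induction a with
  | zero => simp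
  | succ a ih =>
    rw [List.range_succ, List.flatMap_append, ih, Nat.succ_mul, List.range_add, List.map_append]
    congr 1
    simp only [List.flatMap_cons, List.flatMap_nil, List.append_nil, List.map_map]
    refine List.map_congr_left fun c hc => ?_
    have hc' : c < b := List.mem_range.1 hc
    simp only [Function.comp_apply]
    rw [Nat.mul_comm a b, Nat.mul_add_div hb, Nat.mul_add_mod, Nat.div_eq_of_lt hc',
      Nat.mod_eq_of_lt hc', Nat.add_zero]

theorem lift_eq (p : ℕ) (hp : 0 < p) (u : List Bool) :
    lift p u = (List.range (p * p)).map (fun l => decide (hv p (l / p) u = l % p)) := by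
  unfold lift
  exact flatMap_range (fun i c => decide (hv p i u = c)) p hp p

theorem foldr_one (g : ℕ → Bool) (l0 : ℕ) (L : List ℕ) (hL : L.Nodup) :
    (L.map (fun l => (decide (l = l0), g l))).foldr (fun p s => xor (p.1 && p.2) s) false =
      (decide (l0 ∈ L) && g l0) := by
  induction L with
  | nil => simp
  | cons a L ih =>
    rw [List.nodup_cons] at hL
    rw [List.map_cons, List.foldr_cons, ih hL.2]
    by_cases ha : a = l0
    · subst ha
      simp [hL.1]
    · have h1 : decide (a = l0) = false := by simp [ha]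
      have h2 : decide (l0 ∈ a :: L) = decide (l0 ∈ L) := by
        have : l0 ∈ a :: L ↔ l0 ∈ L := by
          rw [List.mem_cons]
          exact ⟨fun h => h.resolve_left (fun e => ha e.symm), Or.inr⟩
        simp only [this]
      rw [h1, h2]
      simp

theorem ip_one (g : ℕ → Bool) (l0 N : ℕ) (h : l0 < N) :
    ip ((List.range N).map (fun l => decide (l = l0))) ((List.range N).map g) = g l0 := by
  unfold ip
  rw [List.zip_map', foldr_one g l0 _ List.nodup_range]
  simp [h]

theorem exists_good (p k j : ℕ) (S : Finset (List Bool)) (u : List Bool) (hp : p.Prime)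
    (hS : ∀ v ∈ S, v.length = j) (hu : u ∈ S) (hk : S.card ≤ k) (hkj : k * j < p) :
    ∃ i < p, ∀ v ∈ S, v ≠ u → hv p i v ≠ hv p i u := by
  classical
  by_contra hcon
  push Not at hcon
  have h1 : range p ⊆ (S.erase u).biUnion
      (fun v => (range p).filter (fun i => hv p i v = hv p i u)) := by
    intro i hi
    obtain ⟨v, hv1, hv2, hv3⟩ := hcon i (Finset.mem_range.1 hi)
    rw [Finset.mem_biUnion]
    exact ⟨v, Finset.mem_erase.2 ⟨hv2, hv1⟩, Finset.mem_filter.2 ⟨hi, hv3⟩⟩
  have h2 := Finset.card_le_card h1
  rw [Finset.card_range] at h2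
  have h3 : ((S.erase u).biUnion
      (fun v => (range p).filter (fun i => hv p i v = hv p i u))).card ≤ (S.erase u).card * j := by
    refine Finset.card_biUnion_le_card_mul _ _ _ fun v hv' => ?_
    rw [Finset.mem_erase] at hv'
    have := collisions hp v u ((hS v hv'.2).trans (hS u hu).symm) hv'.1
    rwa [hS v hv'.2] at this
  have h4 : (S.erase u).card * j ≤ k * j :=
    Nat.mul_le_mul_right _ ((Finset.card_le_card (Finset.erase_subset _ _)).trans hk)
  omega

theorem SEP : S_SEP := by
  intro p k j S u hp hS hu hk hkj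
  obtain ⟨i, hi, hgood⟩ := exists_good p k j S u hp hS hu hk hkj
  have hp0 : 0 < p := hp.pos
  have hlt : hv p i u < p := hv_lt hp0 i u
  refine ⟨(List.range (p * p)).map (fun l => decide (l = i * p + hv p i u)), by simp, ?_⟩
  intro v hv'
  have h0 : i * p + hv p i u < p * p := by nlinarith
  unfold lbl
  rw [lift_eq p hp0, ip_one _ _ _ h0]
  have h1 : (i * p + hv p i u) / p = i := by
    rw [Nat.mul_comm, Nat.mul_add_div hp0, Nat.div_eq_of_lt hlt, Nat.add_zero]
  have h2 : (i * p + hv p i u) % p = hv p i u := by
    rw [Nat.mul_comm, Nat.mul_add_mod, Nat.mod_eq_of_lt hlt]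
  rw [h1, h2, decide_eq_true_eq]
  constructor
  · intro h
    by_contra hne
    exact hgood v hv' hne h
  · rintro rfl
    rfl

end Pool.Agent.W924.RL
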